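import Mathlib
import Pool.Agent.Work.MP_caf7e3_lc.Rec

/-!
The recursion theorem for injective families of programs, general form, and the injective family
of translations.
-/

namespace Pool.Agent.Work.MP_caf7e3_lc

open Pool.Agent.Work.MP_0532f7_lc Nat.Partrec

variable (σ : List Bool → List Bool) (V : List Bool → List Bool → List Bool)

open Classical in
/-- the functional -/
noncomputable def GF (c : Code) (n : ℕ) : Part ℕ :=
  if colS σ (un (Encodable.encode c)) (wd n.unpair.1) then Part.some 1 else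
  if colL σ (un (Encodable.encode c)) (wd n.unpair.1) n.unpair.2 then Part.some 0 else
  nu (V (un (Encodable.encode c)) (wd n.unpair.1)) n.unpair.2

variable {σ V}

theorem partrec_GF (hσ : FP σ) (hV : Primrec₂ V) : Partrec₂ (GF σ V) := by
  classical
  have ha : Primrec fun p : Code × ℕ => un (Encodable.encode p.1) :=
    primrec_un.comp (Primrec.encode.comp Primrec.fst)
  have hu : Primrec fun p : Code × ℕ => wd p.2.unpair.1 :=
    primrec_wd.comp (Primrec.fst.comp (Primrec.unpair.comp Primrec.snd))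
  have hz : Primrec fun p : Code × ℕ => p.2.unpair.2 :=
    Primrec.snd.comp (Primrec.unpair.comp Primrec.snd)
  have h1 : PrimrecPred fun p : Code × ℕ =>
      colS σ (un (Encodable.encode p.1)) (wd p.2.unpair.1) := (rel_colS hσ).comp ha hu
  have h2 : PrimrecPred fun p : Code × ℕ =>
      colL σ (un (Encodable.encode p.1)) (wd p.2.unpair.1) p.2.unpair.2 :=
    (rel_colL hσ).comp (ha.pair (hu.pair hz))
  have h3 : Primrec fun p : Code × ℕ =>
      V (un (Encodable.encode p.1)) (wd p.2.unpair.1) := hV.comp ha hu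
  have h4 : Partrec fun p : Code × ℕ =>
      nu (V (un (Encodable.encode p.1)) (wd p.2.unpair.1)) p.2.unpair.2 :=
    Partrec.comp (f := fun p : List Bool × ℕ => nu p.1 p.2) nu_ps (h3.pair hz).to_comp
  have h5 := Partrec.cond (c := fun p : Code × ℕ =>
      decide (colL σ (un (Encodable.encode p.1)) (wd p.2.unpair.1) p.2.unpair.2))
      h2.decide.to_comp (Computable.const 0 : Computable fun _ : Code × ℕ => 0) h4
  have h6 := Partrec.cond (c := fun p : Code × ℕ =>
      decide (colS σ (un (Encodable.encode p.1)) (wd p.2.unpair.1)))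
      h1.decide.to_comp (Computable.const 1 : Computable fun _ : Code × ℕ => 1) h5
  refine h6.of_eq fun p => ?_
  rw [GF]
  by_cases a : colS σ (un (Encodable.encode p.1)) (wd p.2.unpair.1)
  · simp [a]
  · by_cases b : colL σ (un (Encodable.encode p.1)) (wd p.2.unpair.1) p.2.unpair.2
    · simp [a, b]
    · simp [a, b]

theorem nu_fixG (hσ : FP σ) (hV : Primrec₂ V) : ∃ a : List Bool, ∀ (u : List Bool) (z : ℕ),
    (colS σ a u → nu (pr a u) z = Part.some 1) ∧
    (¬ colS σ a u → colL σ a u z → nu (pr a u) z = Part.some 0) ∧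
    (¬ colS σ a u → ¬ colL σ a u z → nu (pr a u) z = nu (V a u) z) := by
  obtain ⟨c, hc⟩ := Code.fixed_point₂ (partrec_GF hσ hV)
  refine ⟨un (Encodable.encode c), fun u z => ?_⟩
  have e1 : wd (Nat.unpair (Nat.pair (val u) z)).1 = u := by rw [Nat.unpair_pair]; exact wd_val u
  have e2 : (Nat.unpair (Nat.pair (val u) z)).2 = z := by rw [Nat.unpair_pair]
  rw [nu_pr, hc, GF, e1, e2]
  refine ⟨fun h => by rw [if_pos h], fun h h' => by rw [if_neg h, if_pos h'],
    fun h h' => by rw [if_neg h, if_neg h']⟩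

theorem rec_gen (hσ : FP σ) (hV : Primrec₂ V) {φ : List Bool → ℕ →. ℕ}
    (h : ∀ i, nu i = φ (σ i)) : ∃ a : List Bool, Function.Injective (sg σ a) ∧
      ∀ u, nu (pr a u) = nu (V a u) := by
  classical
  obtain ⟨a, ha⟩ := nu_fixG hσ hV
  have hinj : Function.Injective (sg σ a) := by
    have key : ∀ u : List Bool, ¬ colS σ a u := by
      intro u hu
      have hex : ∃ l, sg σ a (wd l) = sg σ a u := ⟨val u, by rw [wd_val]⟩
      have hl := Nat.find_spec hex
      have hmin := fun m => Nat.find_min hex (m := m)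
      set l := Nat.find hex
      have hlt : l < val u := by
        obtain ⟨m, hm, hm'⟩ := hu
        exact lt_of_le_of_lt (Nat.find_le hm') hm
      have h1 : ¬ colS σ a (wd l) := by
        rintro ⟨m, hm, hm'⟩
        rw [val_wd] at hm
        exact hmin m hm (hm'.trans hl)
      have h2 : colL σ a (wd l) (val u + 1) :=
        ⟨val u, Nat.lt_succ_self _, by rw [val_wd]; omega, by rw [wd_val, hl]⟩
      have h3 := (ha (wd l) (val u + 1)).2.1 h1 h2
      have h4 := (ha u (val u + 1)).1 hu
      have h5 : nu (pr a (wd l)) = nu (pr a u) := by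
        rw [h, h]
        exact congrArg φ hl
      rw [h5, h4] at h3
      exact absurd (Part.some_inj.1 h3) (by norm_num)
    intro u v huv
    rcases lt_trichotomy (val u) (val v) with h1 | h1 | h1
    · exact absurd ⟨val u, h1, by rw [wd_val, huv]⟩ (key v)
    · exact val_inj h1
    · exact absurd ⟨val v, h1, by rw [wd_val, huv]⟩ (key u)
  refine ⟨a, hinj, fun u => ?_⟩
  funext z
  refine (ha u z).2.2 ?_ ?_
  · rintro ⟨l, hl, hl'⟩
    have := hinj hl'
    rw [← this, val_wd] at hl
    exact lt_irrefl _ hl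
  · rintro ⟨l, -, hl, hl'⟩
    have := hinj hl'
    rw [← this, val_wd] at hl
    exact hl rfl

/-- an injective family of translations of the programs of `ψ` into `φ` -/
theorem family {φ ψ : List Bool → ℕ →. ℕ} (hφ : GNPTime φ) (hψ : ProgrammingSystem ψ) :
    ∃ S : List Bool → List Bool, FP S ∧
      (∀ x y x' y', S (pr x y) = S (pr x' y') → x = x' ∧ y = y') ∧
      ∀ x y, ψ x = φ (S (pr x y)) := by
  obtain ⟨σ, hσ, hσ'⟩ := hφ.2 nu nu_godel
  obtain ⟨a, hinj, hsem⟩ := rec_gen (V := fun _ u => fs u) (PolyTime.fp hσ)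
    (primrec_fs.comp Primrec.snd).to₂ hσ'
  obtain ⟨b, hb⟩ := nu_univ hψ
  refine ⟨fun z => σ (pr a (pr (pr b (fs z)) (sn z))), (PolyTime.fp hσ).comp
    ((FP.const a).pair (((FP.const b).pair FP.fsI).pair FP.snI)), fun x y x' y' h => ?_,
    fun x y => ?_⟩
  · simp only [fs_pr, sn_pr] at h
    have h1 := hinj (a₁ := pr (pr b x) y) (a₂ := pr (pr b x') y') h
    have h2 := congrArg fs h1
    have h3 := congrArg sn h1
    rw [fs_pr, fs_pr] at h2
    rw [sn_pr, sn_pr] at h3
    have h4 := congrArg sn h2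
    rw [sn_pr, sn_pr] at h4
    exact ⟨h4, h3⟩
  · simp only [fs_pr, sn_pr]
    rw [← hσ', hsem, fs_pr, hb]

end Pool.Agent.Work.MP_caf7e3_lc
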