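import Mathlib
import Pool.Agent.Work.MP_caf7e3_lc.UB.RecG
import Pool.Agent.Work.MP_0532f7_lc.OMain

/-!
Counting: for every length one padding word makes an injective family length-increasing.
-/

namespace Pool.Agent.Work.MP_caf7e3_lc

open Pool.Agent.Work.MP_0532f7_lc

theorem exists_pad {S : List Bool → List Bool}
    (hS : ∀ x y x' y', S (pr x y) = S (pr x' y') → x = x' ∧ y = y') (n : ℕ) :
    ∃ y : List Bool, y.length = n + 1 ∧ ∀ x : List Bool, x.length = n →
      n < (S (pr x y)).length := by
  by_contra hc
  push Not at hc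
  have h1 : ∀ y : List Bool, ∃ x : List Bool, y.length = n + 1 →
      x.length = n ∧ (S (pr x y)).length ≤ n := by
    intro y
    by_cases hy : y.length = n + 1
    · obtain ⟨x, hx⟩ := hc y hy
      exact ⟨x, fun _ => hx⟩
    · exact ⟨[], fun h => absurd h hy⟩
  choose X hX using h1
  have h2 : (ombWords (n + 1)).card ≤ (Finset.range (2 ^ (n + 1) - 1)).card := by
    refine Finset.card_le_card_of_injOn (fun y => val (S (pr (X y) y))) ?_ ?_
    · intro y hy
      have hy' : y.length = n + 1 := omb_mem_words.1 hy
      have h3 := val_lt (hX y hy').2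
      simp only [Finset.coe_range, Set.mem_Iio]
      omega
    · intro y _ y' _ hyy
      exact (hS _ _ _ _ (val_inj hyy)).2
  rw [card_ombWords, Finset.card_range] at h2
  have h4 : 0 < 2 ^ (n + 1) := by positivity
  omega

end Pool.Agent.Work.MP_caf7e3_lc
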