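import Mathlib

/-!
Cantor-Bernstein for length-increasing injective maps between two copies of the binary words: the
side on which a chain starts is the parity of the number of steps one can go back.
-/

namespace Pool.Agent.Work.MP_caf7e3_lc

/-- `mp b` maps the side `!b` into the side `b`; the first bit of a word is its side -/
def stp (mp : Bool → List Bool → List Bool) (w : List Bool) : List Bool :=
  (!(w.head?.getD false)) :: mp (!(w.head?.getD false)) w.tail

/-- one can go back `m` steps from the word `x` on the side `b` -/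
def Bk (mp : Bool → List Bool → List Bool) (m : ℕ) (b : Bool) (x : List Bool) : Prop :=
  ∃ w, w ≠ [] ∧ (stp mp)^[m] w = b :: x

open Classical in
/-- the number of steps one can go back -/
noncomputable def dep (mp : Bool → List Bool → List Bool) (b : Bool) (x : List Bool) : ℕ :=
  ((Finset.range x.length).filter fun m => Bk mp (m + 1) b x).card

open Classical in
/-- the isomorphism from the side `b` to the side `!b` -/
noncomputable def hh (mp : Bool → List Bool → List Bool) (b : Bool) (x : List Bool) : List Bool :=
  if Even (dep mp b x) then mp (!b) x else Function.invFun (mp b) x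

variable {mp : Bool → List Bool → List Bool}

theorem stp_cons (b : Bool) (x : List Bool) : stp mp (b :: x) = (!b) :: mp (!b) x := by
  simp [stp]

theorem stp_ne (w : List Bool) : stp mp w ≠ [] := by simp [stp]

theorem stp_inj (hinj : ∀ b, Function.Injective (mp b)) {w w' : List Bool} (hw : w ≠ [])
    (hw' : w' ≠ []) (h : stp mp w = stp mp w') : w = w' := by
  obtain ⟨b, x, rfl⟩ := List.exists_cons_of_ne_nil hw
  obtain ⟨b', x', rfl⟩ := List.exists_cons_of_ne_nil hw'
  rw [stp_cons, stp_cons] at h
  obtain ⟨h1, h2⟩ := List.cons.inj h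
  have h3 : b = b' := by simpa using h1
  subst h3
  rw [hinj _ h2]

theorem iter_ne (m : ℕ) {w : List Bool} (hw : w ≠ []) : (stp mp)^[m] w ≠ [] := by
  induction m generalizing w with
  | zero => exact hw
  | succ m ih => rw [Function.iterate_succ_apply]; exact ih (stp_ne w)

theorem iter_inj (hinj : ∀ b, Function.Injective (mp b)) (m : ℕ) {w w' : List Bool} (hw : w ≠ [])
    (hw' : w' ≠ []) (h : (stp mp)^[m] w = (stp mp)^[m] w') : w = w' := by
  induction m generalizing w w' with
  | zero => exact h
  | succ m ih =>
    rw [Function.iterate_succ_apply, Function.iterate_succ_apply] at h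
    exact stp_inj hinj hw hw' (ih (stp_ne w) (stp_ne w') h)

theorem iter_len (hlen : ∀ b x, x.length < (mp b x).length) (m : ℕ) {w : List Bool}
    (hw : w ≠ []) : w.length + m ≤ ((stp mp)^[m] w).length := by
  induction m generalizing w with
  | zero => simp
  | succ m ih =>
    rw [Function.iterate_succ_apply]
    refine le_trans ?_ (ih (stp_ne w))
    obtain ⟨b, x, rfl⟩ := List.exists_cons_of_ne_nil hw
    have h1 := hlen (!b) x
    rw [stp_cons]
    simp only [List.length_cons]
    omega

theorem bk_zero (b : Bool) (x : List Bool) : Bk mp 0 b x := ⟨b :: x, by simp, rfl⟩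

theorem bk_pred {m : ℕ} {b : Bool} {x : List Bool} (h : Bk mp (m + 1) b x) : Bk mp m b x := by
  obtain ⟨w, hw, h1⟩ := h
  rw [Function.iterate_succ_apply] at h1
  exact ⟨stp mp w, stp_ne w, h1⟩

theorem bk_le (hlen : ∀ b x, x.length < (mp b x).length) {m : ℕ} {b : Bool} {x : List Bool}
    (h : Bk mp m b x) : m ≤ x.length := by
  obtain ⟨w, hw, h1⟩ := h
  have h2 := iter_len hlen m hw
  rw [h1] at h2
  have h3 : 0 < w.length := List.length_pos_of_ne_nil hw
  simp only [List.length_cons] at h2
  omega

theorem bk_mp (hinj : ∀ b, Function.Injective (mp b)) (m : ℕ) (b : Bool) (x : List Bool) :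
    Bk mp (m + 1) b (mp b x) ↔ Bk mp m (!b) x := by
  constructor
  · rintro ⟨w, hw, h1⟩
    rw [Function.iterate_succ_apply'] at h1
    refine ⟨w, hw, stp_inj hinj (iter_ne m hw) (by simp) ?_⟩
    rw [h1, stp_cons, Bool.not_not]
  · rintro ⟨w, hw, h1⟩
    refine ⟨w, hw, ?_⟩
    rw [Function.iterate_succ_apply', h1, stp_cons, Bool.not_not]

theorem bk_one (b : Bool) (x : List Bool) : Bk mp 1 b x ↔ ∃ y, mp b y = x := by
  constructor
  · rintro ⟨w, hw, h1⟩
    obtain ⟨c, y, rfl⟩ := List.exists_cons_of_ne_nil hw
    rw [Function.iterate_one, stp_cons] at h1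
    obtain ⟨h2, h3⟩ := List.cons.inj h1
    rw [h2] at h3
    exact ⟨y, h3⟩
  · rintro ⟨y, hy⟩
    refine ⟨(!b) :: y, by simp, ?_⟩
    rw [Function.iterate_one, stp_cons, Bool.not_not, hy]

theorem dep_mp (hinj : ∀ b, Function.Injective (mp b))
    (hlen : ∀ b x, x.length < (mp b x).length) (b : Bool) (x : List Bool) :
    dep mp b (mp b x) = dep mp (!b) x + 1 := by
  classical
  unfold dep
  have h1 : (Finset.range (mp b x).length).filter (fun m => Bk mp (m + 1) b (mp b x)) =
      insert 0 (((Finset.range x.length).filter fun m => Bk mp (m + 1) (!b) x).image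
        Nat.succ) := by
    ext m
    simp only [Finset.mem_filter, Finset.mem_range, Finset.mem_insert, Finset.mem_image,
      bk_mp hinj]
    constructor
    · rintro ⟨h1, h2⟩
      rcases m with _ | m
      · left; rfl
      · right
        exact ⟨m, ⟨Nat.lt_of_succ_le (bk_le hlen h2), h2⟩, rfl⟩
    · rintro (rfl | ⟨m, ⟨h1, h2⟩, rfl⟩)
      · exact ⟨lt_of_le_of_lt (Nat.zero_le _) (hlen b x), bk_zero _ _⟩
      · exact ⟨lt_of_le_of_lt (Nat.succ_le_of_lt h1) (hlen b x), h2⟩
  rw [h1, Finset.card_insert_of_notMem, Finset.card_image_of_injective _ Nat.succ_injective]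
  simp

theorem exists_of_dep {b : Bool} {x : List Bool} (h : dep mp b x ≠ 0) : ∃ y, mp b y = x := by
  classical
  unfold dep at h
  obtain ⟨m, hm⟩ := Finset.card_pos.1 (Nat.pos_of_ne_zero h)
  have h1 := (Finset.mem_filter.1 hm).2
  have h2 : ∀ m, Bk mp (m + 1) b x → Bk mp 1 b x := by
    intro m
    induction m with
    | zero => exact id
    | succ m ih => exact fun h => ih (bk_pred h)
  exact (bk_one b x).1 (h2 m h1)

theorem hh_hh (hinj : ∀ b, Function.Injective (mp b))
    (hlen : ∀ b x, x.length < (mp b x).length) (b : Bool) (x : List Bool) :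
    hh mp (!b) (hh mp b x) = x := by
  classical
  by_cases h : Even (dep mp b x)
  · have h1 : hh mp b x = mp (!b) x := if_pos h
    have h2 : dep mp (!b) (mp (!b) x) = dep mp b x + 1 := by
      rw [dep_mp hinj hlen, Bool.not_not]
    rw [h1, hh, if_neg (by rw [h2]; exact Nat.not_even_iff_odd.2 h.add_one)]
    exact Function.leftInverse_invFun (hinj (!b)) x
  · have h1 : hh mp b x = Function.invFun (mp b) x := if_neg h
    obtain ⟨y, rfl⟩ := exists_of_dep (mp := mp) (b := b) (x := x)
      (fun h0 => h (by rw [h0]; exact Even.zero))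
    have h2 : Function.invFun (mp b) (mp b y) = y := Function.leftInverse_invFun (hinj b) y
    rw [h1, h2, hh, if_pos, Bool.not_not]
    rw [dep_mp hinj hlen, Nat.even_add_one, not_not] at h
    exact h

theorem hh_cases (hinj : ∀ b, Function.Injective (mp b)) (b : Bool) (x : List Bool) :
    hh mp b x = mp (!b) x ∨ mp b (hh mp b x) = x := by
  classical
  by_cases h : Even (dep mp b x)
  · exact Or.inl (if_pos h)
  · right
    have h1 : hh mp b x = Function.invFun (mp b) x := if_neg h
    obtain ⟨y, rfl⟩ := exists_of_dep (mp := mp) (b := b) (x := x)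
      (fun h0 => h (by rw [h0]; exact Even.zero))
    rw [h1, Function.leftInverse_invFun (hinj b) y]

end Pool.Agent.Work.MP_caf7e3_lc
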