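import Mathlib
import Pool.Agent.Work.MP_0532f7_lc.Univ
import Pool.Agent.Work.MP_caf7e3_lc.Defs

/-!
Sets in UP, and functions computable in polynomial time with non-adaptive queries to an oracle and
advice.
-/

namespace Pool.Agent.Work.MP_caf7e3_lc

open Pool.Agent.Work.MP_0532f7_lc (pr un)

/-- The set `U` of binary words is in UP: `x` is in `U` iff the polynomial-time verifier `V`
accepts `x` with some word of length at most `P.eval |x|`, and there is at most one such word. -/
def InUP (U : Set (List Bool)) : Prop :=
  ∃ (V : List Bool → List Bool) (P : Polynomial ℕ), PolyTime V ∧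
    (∀ x, x ∈ U ↔ ∃ w : List Bool, w.length ≤ P.eval x.length ∧ V (pr x w) = [true]) ∧
    ∀ x w w' : List Bool, w.length ≤ P.eval x.length → w'.length ≤ P.eval x.length →
      V (pr x w) = [true] → V (pr x w') = [true] → w = w'

open Classical in
/-- The answers of the oracle `U` to the `n` queries `Q (x, 1^0), ..., Q (x, 1^(n-1))`. -/
noncomputable def ttAnswers (U : Set (List Bool)) (Q : List Bool → List Bool) (x : List Bool)
    (n : ℕ) : List Bool :=
  (List.range n).map fun i => decide (Q (pr x (un i)) ∈ U)

/-- `f` is computable in polynomial time with non-adaptive queries to the oracle `U`: the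
queries `Q (x, 1^i)`, `i < |C x|`, are computed in polynomial time from `x`, and the value is
computed in polynomial time from `x` and all the answers. -/
def PolyTimeTT (U : Set (List Bool)) (f : List Bool → List Bool) : Prop :=
  ∃ Q C O : List Bool → List Bool, PolyTime Q ∧ PolyTime C ∧ PolyTime O ∧
    ∀ x, f x = O (pr x (ttAnswers U Q x (C x).length))

/-- `h` is computable in polynomial time with non-adaptive queries to `U` and the advice word
`a n` for inputs of length `n`. -/
def PolyTimeTTAdv (U : Set (List Bool)) (a : ℕ → List Bool) (h : List Bool → List Bool) : Prop :=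
  ∃ f, PolyTimeTT U f ∧ ∀ x, h x = f (pr x (a x.length))

/-- `h` is computable in polynomial time with the advice word `a n` for inputs of length `n`. -/
def PolyTimeAdv (a : ℕ → List Bool) (h : List Bool → List Bool) : Prop :=
  ∃ f, PolyTime f ∧ ∀ x, h x = f (pr x (a x.length))

/-- The advice has polynomial length. -/
def PolyAdvice (a : ℕ → List Bool) : Prop := ∃ P : Polynomial ℕ, ∀ n, (a n).length ≤ P.eval n

/-- The set `U` of binary words is in P. -/
def InP (U : Set (List Bool)) : Prop :=
  ∃ c : List Bool → List Bool, PolyTime c ∧ ∀ x, x ∈ U ↔ c x = [true]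

end Pool.Agent.Work.MP_caf7e3_lc
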