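import Mathlib
import Pool.Agent.Work.MP_caf7e3_lc.UB.Defs
import Pool.Agent.Work.MP_caf7e3_lc.UB.BHset

/-!
The set in UP: chains of two families of injective maps, with parameters.
-/

namespace Pool.Agent.Work.MP_caf7e3_lc

open Pool.Agent.Work.MP_0532f7_lc Polynomial

section

variable (S : Bool → List Bool → List Bool)

/-- the map into the side `b` with the parameters read off the advice `A` -/
def mpA (A : List Bool) (b : Bool) (z : List Bool) : List Bool :=
  S b (pr z (if b then fs (nth z A) else sn (nth z A)))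

/-- the clipped step -/
def cs (p w : List Bool) : List Bool :=
  if w.isEmpty then [] else
    if (w.drop (sn p).length).isEmpty && ((stp (mpA S (fs p)) w).drop (sn p).length).isEmpty then
      stp (mpA S (fs p)) w else []

/-- the condition on the start of the chain -/
def cnd (t j z : List Bool) : Bool :=
  t.isEmpty || ((z ++ [true]).drop j.length).head?.getD false

/-- the verifier -/
def Vb (z : List Bool) : Bool :=
  (!(fs (sn (sn (fs z)))).isEmpty &&
    decide ((cs S (pr (fs (fs z)) (fs (sn (sn (fs z))))))^[(fs (sn (fs z))).length] (sn z) =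
      fs (sn (sn (fs z))))) &&
    cnd (fs (sn (sn (sn (fs z))))) (sn (sn (sn (sn (fs z))))) (sn z).tail

/-- the set in UP -/
def Uq : Set (List Bool) := {q | ∃ w : List Bool, w.length ≤ q.length ∧ Vb S (pr q w) = true}

end

variable {S : Bool → List Bool → List Bool}

theorem mpA_fp (hS : ∀ b, FP (S b)) (b : Bool) {f g : List Bool → List Bool} (hf : FP f)
    (hg : FP g) : FP fun z => mpA S (f z) b (g z) := by
  cases b with
  | true => exact ((hS true).comp (hg.pair (FP.nthI hg hf).fst)).congr fun z => by simp [mpA]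
  | false => exact ((hS false).comp (hg.pair (FP.nthI hg hf).snd)).congr fun z => by simp [mpA]

theorem stpA_fp (hS : ∀ b, FP (S b)) {f g : List Bool → List Bool} (hf : FP f)
    (hg : FP g) : FP fun z => stp (mpA S (f z)) (g z) := by
  refine (FP.ite (FPb.hd.comp hg) ((FP.cons false).comp (mpA_fp hS false hf (FP.tail.comp hg)))
    ((FP.cons true).comp (mpA_fp hS true hf (FP.tail.comp hg)))).congr fun z => ?_
  cases h : (g z).head?.getD false <;> simp [stp, h]

theorem cs_fp (hS : ∀ b, FP (S b)) : FP fun z => cs S (fs z) (sn z) := by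
  have h1 : FP fun z => stp (mpA S (fs (fs z))) (sn z) := stpA_fp hS FP.fsI.fst FP.snI
  have h2 := FPb.and (FPb.isNil.comp (FP.drop FP.fsI.snd FP.snI))
    (FPb.isNil.comp (FP.drop FP.fsI.snd h1))
  exact (FP.ite (FPb.isNil.comp FP.snI) FP.nil (FP.ite h2 h1 FP.nil)).congr fun z => by
    simp only [cs]

theorem isEmpty_drop (l : List Bool) (n : ℕ) : (l.drop n).isEmpty = true ↔ l.length ≤ n := by
  rw [List.isEmpty_iff, List.drop_eq_nil_iff]

theorem cs_nil (p : List Bool) : cs S p [] = [] := by simp [cs]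

theorem cs_ne {p w : List Bool} (h : cs S p w ≠ []) : w ≠ [] ∧ w.length ≤ (sn p).length ∧
    (stp (mpA S (fs p)) w).length ≤ (sn p).length ∧ cs S p w = stp (mpA S (fs p)) w := by
  unfold cs at h ⊢
  by_cases h1 : w.isEmpty = true
  · rw [if_pos h1] at h; exact absurd rfl h
  · rw [if_neg h1] at h ⊢
    by_cases h2 : ((w.drop (sn p).length).isEmpty &&
        ((stp (mpA S (fs p)) w).drop (sn p).length).isEmpty) = true
    · rw [if_pos h2] at h ⊢
      rw [Bool.and_eq_true, isEmpty_drop, isEmpty_drop] at h2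
      exact ⟨by rintro rfl; exact h1 rfl, h2.1, h2.2, rfl⟩
    · rw [if_neg h2] at h; exact absurd rfl h

theorem cs_eq {p w : List Bool} (h0 : w ≠ []) (h1 : w.length ≤ (sn p).length)
    (h2 : (stp (mpA S (fs p)) w).length ≤ (sn p).length) :
    cs S p w = stp (mpA S (fs p)) w := by
  unfold cs
  rw [if_neg (by rw [List.isEmpty_iff]; exact h0), if_pos]
  rw [Bool.and_eq_true, isEmpty_drop, isEmpty_drop]
  exact ⟨h1, h2⟩

theorem cs_len (p w : List Bool) (i : ℕ) :
    ((cs S p)^[i] w).length ≤ w.length + (sn p).length := by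
  rcases i with _ | i
  · simp
  · rw [Function.iterate_succ_apply']
    by_cases h : cs S p ((cs S p)^[i] w) = []
    · rw [h]; simp
    · have := cs_ne h
      rw [this.2.2.2]
      omega

theorem Vb_fp (hS : ∀ b, FP (S b)) : FPb (Vb S) := by
  have hA : FP fun z => fs (fs z) := FP.fsI.fst
  have hm : FP fun z => fs (sn (fs z)) := FP.fsI.snd.fst
  have hy : FP fun z => fs (sn (sn (fs z))) := FP.fsI.snd.snd.fst
  have ht : FP fun z => fs (sn (sn (sn (fs z)))) := FP.fsI.snd.snd.snd.fst
  have hj : FP fun z => sn (sn (sn (sn (fs z)))) := FP.fsI.snd.snd.snd.snd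
  have h1 := FP.iterc (cs_fp hS) (hA.pair hy) hm FP.snI (2 * X) (fun z i _ => by
    refine (cs_len _ _ _).trans ?_
    rw [sn_pr]
    have h1 := sn_length z
    have h2 := fs_length (sn (sn (fs z)))
    have h3 := sn_length (sn (fs z))
    have h4 := sn_length (fs z)
    have h5 := fs_length z
    simp only [eval_mul, eval_X, eval_ofNat]
    omega)
  refine FPb.and (FPb.and (FPb.isNil.comp hy).not (FPb.eq h1 hy)) ?_
  exact FPb.or (FPb.isNil.comp ht)
    (FPb.hd.comp (FP.drop hj ((FP.tail.comp FP.snI).app (FP.const [true]))))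

theorem mpA_inj (hSi : ∀ b x y x' y', S b (pr x y) = S b (pr x' y') → x = x' ∧ y = y')
    (A : List Bool) (b : Bool) : Function.Injective (mpA S A b) :=
  fun _ _ h => (hSi b _ _ _ _ h).1

theorem cs_iter_stp {A y : List Bool} (hy : y ≠ []) (m : ℕ) : ∀ w : List Bool,
    (cs S (pr A y))^[m] w = y → w ≠ [] ∧ (stp (mpA S A))^[m] w = y := by
  induction m with
  | zero => intro w h; exact ⟨by rw [Function.iterate_zero, id] at h; rwa [h], h⟩
  | succ m ih =>
    intro w h
    rw [Function.iterate_succ_apply] at h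
    obtain ⟨h1, h2⟩ := ih _ h
    obtain ⟨h3, -, -, h4⟩ := cs_ne h1
    rw [fs_pr] at h4
    rw [h4] at h2
    exact ⟨h3, by rw [Function.iterate_succ_apply]; exact h2⟩

theorem Uq_up (hS : ∀ b, FP (S b))
    (hSi : ∀ b x y x' y', S b (pr x y) = S b (pr x' y') → x = x' ∧ y = y') : InUP (Uq S) := by
  refine ⟨fun z => [Vb S z], X, FP.polyTime (Vb_fp hS), fun q => ?_, fun q w w' _ _ h h' => ?_⟩
  · simp only [Uq, Set.mem_ofPred_eq, eval_X, List.cons.injEq, and_true]
  · have key : ∀ w, [Vb S (pr q w)] = [true] → fs (sn (sn q)) ≠ [] ∧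
        (cs S (pr (fs q) (fs (sn (sn q)))))^[(fs (sn q)).length] w = fs (sn (sn q)) := by
      intro w h
      have h1 : Vb S (pr q w) = true := (List.cons.inj h).1
      rw [Vb, Bool.and_eq_true, Bool.and_eq_true, Bool.not_eq_true', decide_eq_true_iff,
        fs_pr, sn_pr] at h1
      refine ⟨fun h2 => ?_, h1.1.2⟩
      rw [h2] at h1
      exact absurd h1.1.1 (by simp)
    obtain ⟨h1, h2⟩ := key w h
    obtain ⟨-, h3⟩ := key w' h'
    obtain ⟨h4, h5⟩ := cs_iter_stp h1 _ w h2
    obtain ⟨h6, h7⟩ := cs_iter_stp h1 _ w' h3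
    exact iter_inj (mpA_inj hSi _) _ h4 h6 (h5.trans h7.symm)

variable {mp : Bool → List Bool → List Bool}

theorem stp_congr {A w : List Bool} {n : ℕ}
    (hg : ∀ c z, z.length ≤ n → mpA S A c z = mp c z) (hw : w.length ≤ n + 1) :
    stp (mpA S A) w = stp mp w := by
  unfold stp
  rw [hg _ _ (by rw [List.length_tail]; omega)]

theorem cs_iter_iff (hlen : ∀ c z, z.length < (mp c z).length) {A x : List Bool} {b : Bool}
    (hg : ∀ c z, z.length ≤ x.length → mpA S A c z = mp c z) (m : ℕ) : ∀ w : List Bool,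
    (cs S (pr A (b :: x)))^[m] w = b :: x ↔ w ≠ [] ∧ (stp mp)^[m] w = b :: x := by
  induction m with
  | zero =>
    intro w
    simp only [Function.iterate_zero, id_eq, ne_eq]
    constructor
    · rintro rfl; simp
    · exact fun h => h.2
  | succ m ih =>
    intro w
    rw [Function.iterate_succ_apply, Function.iterate_succ_apply, ih]
    constructor
    · rintro ⟨h1, h2⟩
      obtain ⟨h3, h4, -, h5⟩ := cs_ne h1
      rw [sn_pr, List.length_cons] at h4
      rw [fs_pr, stp_congr hg h4] at h5
      rw [h5] at h2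
      exact ⟨h3, h2⟩
    · rintro ⟨h1, h2⟩
      have h3 := iter_len hlen (m + 1) h1
      have h4 := iter_len hlen m (stp_ne (mp := mp) w)
      rw [Function.iterate_succ_apply, h2, List.length_cons] at h3
      rw [h2, List.length_cons] at h4
      have h5 : stp (mpA S A) w = stp mp w := stp_congr hg (by omega)
      have h6 : cs S (pr A (b :: x)) w = stp mp w := by
        rw [cs_eq h1 (by rw [sn_pr, List.length_cons]; omega)
          (by rw [fs_pr, h5, sn_pr, List.length_cons]; omega), fs_pr, h5]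
      rw [h6]
      exact ⟨stp_ne w, h2⟩

/-- the code of a query -/
def qry (A m y t j : List Bool) : List Bool := pr A (pr m (pr y (pr t j)))

theorem mem_Uq (hlen : ∀ c z, z.length < (mp c z).length) {A x : List Bool} {b : Bool}
    (hg : ∀ c z, z.length ≤ x.length → mpA S A c z = mp c z) (m t j : List Bool) :
    qry A m (b :: x) t j ∈ Uq S ↔
      ∃ w : List Bool, w ≠ [] ∧ (stp mp)^[m.length] w = b :: x ∧ cnd t j w.tail = true := by
  have key : ∀ w, Vb S (pr (qry A m (b :: x) t j) w) = true ↔
      (w ≠ [] ∧ (stp mp)^[m.length] w = b :: x) ∧ cnd t j w.tail = true := by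
    intro w
    rw [← cs_iter_iff hlen hg]
    simp only [Vb, qry, fs_pr, sn_pr, Bool.and_eq_true, decide_eq_true_iff]
    simp
  constructor
  · rintro ⟨w, -, hw⟩
    rw [key] at hw
    exact ⟨w, hw.1.1, hw.1.2, hw.2⟩
  · rintro ⟨w, h1, h2, h3⟩
    refine ⟨w, ?_, (key w).2 ⟨⟨h1, h2⟩, h3⟩⟩
    have h4 := iter_len hlen m.length h1
    rw [h2, List.length_cons] at h4
    simp only [qry, pr_length, List.length_cons]
    omega

theorem mem_back (hlen : ∀ c z, z.length < (mp c z).length) {A x : List Bool} {b : Bool}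
    (hg : ∀ c z, z.length ≤ x.length → mpA S A c z = mp c z) (m j : List Bool) :
    qry A m (b :: x) [] j ∈ Uq S ↔ Bk mp m.length b x := by
  rw [mem_Uq hlen hg, Bk]
  simp [cnd]

theorem mem_bit (hinj : ∀ b, Function.Injective (mp b))
    (hlen : ∀ c z, z.length < (mp c z).length) {A x z : List Bool} {b : Bool}
    (hg : ∀ c z, z.length ≤ x.length → mpA S A c z = mp c z) (hz : mp b z = x) (j : List Bool) :
    qry A [true] (b :: x) [true] j ∈ Uq S ↔
      ((z ++ [true]).drop j.length).head?.getD false = true := by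
  rw [mem_Uq hlen hg]
  constructor
  · rintro ⟨w, h1, h2, h3⟩
    obtain ⟨c, u, rfl⟩ := List.exists_cons_of_ne_nil h1
    rw [List.length_singleton, Function.iterate_one, stp_cons] at h2
    obtain ⟨h4, h5⟩ := List.cons.inj h2
    rw [h4, ← hz] at h5
    have h6 := hinj _ h5
    rw [h6, List.tail_cons] at h3
    simpa [cnd] using h3
  · intro h
    refine ⟨(!b) :: z, by simp, ?_, ?_⟩
    · rw [List.length_singleton, Function.iterate_one, stp_cons, Bool.not_not, hz]
    · simpa [cnd] using h

end Pool.Agent.Work.MP_caf7e3_lc
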