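import Mathlib
import Pool.Agent.Work.MP_caf7e3_lc.UB.Chain

/-!
The isomorphism is computable with non-adaptive queries to the set in UP.
-/

namespace Pool.Agent.Work.MP_caf7e3_lc

open Pool.Agent.Work.MP_0532f7_lc Polynomial

/-! ### parity and stripping -/

/-- add the second bit to the first one -/
def px (w : List Bool) : List Bool :=
  if w.tail.isEmpty then w else
    if w.tail.head?.getD false then
      (if w.head?.getD false then false :: w.tail.tail else true :: w.tail.tail)
    else (if w.head?.getD false then true :: w.tail.tail else false :: w.tail.tail)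

theorem px_fp : FP px := by
  have h2 : FP fun w => w.tail.tail := FP.tail.comp FP.tail
  exact FP.ite (FPb.isNil.comp FP.tail) FP.id (FP.ite (FPb.hd.comp FP.tail)
    (FP.ite FPb.hd ((FP.cons false).comp h2) ((FP.cons true).comp h2))
    (FP.ite FPb.hd ((FP.cons true).comp h2) ((FP.cons false).comp h2)))

theorem px_len (w : List Bool) : (px w).length ≤ w.length := by
  unfold px
  rcases w with _ | ⟨a, _ | ⟨b, w⟩⟩
  · simp
  · simp
  · simp only [List.tail_cons, List.isEmpty_cons, Bool.false_eq_true, if_false]
    split_ifs <;> simp

theorem px_iter (l : List Bool) : ∀ c : Bool,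
    px^[l.length] (c :: l) = [xor c (decide (Odd (l.count true)))] := by
  induction l with
  | nil => intro c; simp
  | cons a l ih =>
    intro c
    have h1 : px (c :: a :: l) = xor c a :: l := by
      unfold px
      cases c <;> cases a <;> simp
    rw [List.length_cons, Function.iterate_succ_apply, h1, ih, List.count_cons]
    cases a
    · simp
    · simp only [beq_self_eq_true, if_true, Nat.odd_add_one]
      by_cases h : Odd (l.count true) <;> simp [h]

/-- drop a leading `false` -/
def sf (w : List Bool) : List Bool := if w.head?.getD false then w else w.tail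

theorem sf_fp : FP sf := FP.ite FPb.hd FP.id FP.tail

theorem sf_len (w : List Bool) : (sf w).length ≤ w.length := by
  unfold sf
  split_ifs <;> simp

theorem sf_iter (l : List Bool) (n k : ℕ) (hk : k ≤ n) :
    sf^[n] (List.replicate k false ++ true :: l) = true :: l := by
  induction n generalizing k with
  | zero => obtain rfl : k = 0 := by omega
            simp
  | succ n ih =>
    rw [Function.iterate_succ_apply]
    rcases k with _ | k
    · have h1 : sf (List.replicate 0 false ++ true :: l) = true :: l := by simp [sf]
      rw [h1]
      exact ih 0 (by omega)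
    · have h1 : sf (List.replicate (k + 1) false ++ true :: l) =
          List.replicate k false ++ true :: l := by simp [sf, List.replicate_succ]
      rw [h1]
      exact ih k (by omega)

theorem iter_len_le {f : List Bool → List Bool} (hf : ∀ w, (f w).length ≤ w.length) (i : ℕ)
    (w : List Bool) : (f^[i] w).length ≤ w.length := by
  induction i generalizing w with
  | zero => simp
  | succ i ih => rw [Function.iterate_succ_apply]; exact (ih _).trans (hf w)

/-! ### the queries and the evaluation of the answers -/

section

variable (S : Bool → List Bool → List Bool) (b : Bool)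

/-- the queries; `z` codes `((x, A), 1^i)` -/
def Qf (z : List Bool) : List Bool :=
  if ((fs (fs z)).drop (sn z).length).isEmpty then
    qry (sn (fs z)) [true] (b :: fs (fs z)) [true] ((sn z).drop (fs (fs z)).length)
  else qry (sn (fs z)) (true :: sn z) (b :: fs (fs z)) [] []

/-- the number of queries -/
def Cf (z : List Bool) : List Bool := fs z ++ fs z

/-- the evaluation; `z` codes `((x, A), answers)` -/
def Of (z : List Bool) : List Bool :=
  if (px^[((sn z).take (fs (fs z)).length).length]
      (false :: (sn z).take (fs (fs z)).length)).head?.getD false then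
    ((sf^[((sn z).drop (fs (fs z)).length).length]
      ((sn z).drop (fs (fs z)).length).reverse).tail).reverse
  else mpA S (sn (fs z)) (!b) (fs (fs z))

end

variable {S : Bool → List Bool → List Bool} {b : Bool}

theorem Qf_fp : FP (Qf b) := by
  have hq : ∀ {m t j : List Bool → List Bool}, FP m → FP t → FP j →
      FP fun z => qry (sn (fs z)) (m z) (b :: fs (fs z)) (t z) (j z) := fun hm ht hj =>
    FP.fsI.snd.pair (hm.pair (((FP.cons b).comp FP.fsI.fst).pair (ht.pair hj)))
  exact FP.ite (FPb.isNil.comp (FP.drop FP.snI FP.fsI.fst))
    (hq (FP.const [true]) (FP.const [true]) (FP.drop FP.fsI.fst FP.snI))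
    (hq ((FP.cons true).comp FP.snI) (FP.const []) (FP.const []))

theorem Cf_fp : FP Cf := FP.fsI.app FP.fsI

theorem Of_fp (hS : ∀ b, FP (S b)) : FP (Of S b) := by
  have h1 : FP fun z => (sn z).take (fs (fs z)).length := FP.take FP.fsI.fst FP.snI
  have h2 : FP fun z => (sn z).drop (fs (fs z)).length := FP.drop FP.fsI.fst FP.snI
  have h3 := FP.iter px_fp h1 ((FP.cons false).comp h1) (X + 1) (fun z i _ => by
    refine (iter_len_le px_len i _).trans ?_
    have := sn_length z
    simp only [List.length_cons, List.length_take, eval_add, eval_X, eval_one]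
    omega)
  have h4 := FP.iter sf_fp h2 h2.rev X (fun z i _ => by
    refine (iter_len_le sf_len i _).trans ?_
    have := sn_length z
    simp only [List.length_reverse, List.length_drop, eval_X]
    omega)
  exact FP.ite (FPb.hd.comp h3) (FP.tail.comp h4).rev (mpA_fp hS (!b) FP.fsI.snd FP.fsI.fst)

variable {mp : Bool → List Bool → List Bool}

theorem count_map_range (p : ℕ → Prop) [DecidablePred p] (n : ℕ) :
    ((List.range n).map fun i => decide (p i)).count true =
      ((Finset.range n).filter p).card := by
  rw [← Nat.count_eq_card_filter_range, Nat.count, List.count, List.countP_map]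
  congr 1
  funext i
  by_cases h : p i <;> simp [h]

theorem map_bits (l : List Bool) {n : ℕ} (hn : l.length ≤ n) :
    (List.range n).map (fun i => (l.drop i).head?.getD false) =
      l ++ List.replicate (n - l.length) false := by
  apply List.ext_getElem
  · simp; omega
  · intro i h1 h2
    rw [List.getElem_map, List.getElem_range, List.head?_drop]
    by_cases h : i < l.length
    · rw [List.getElem_append_left h, List.getElem?_eq_getElem h]; rfl
    · rw [List.getElem_append_right (by omega), List.getElem?_eq_none (by omega)]
      simp

theorem un_cons_length (i : ℕ) : (true :: un i).length = i + 1 := by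
  simp [un]

theorem un_drop_length (i n : ℕ) : ((un i).drop n).length = i - n := by
  simp [un]

open Classical in
theorem answers_eq (x A : List Bool) :
    ttAnswers (Uq S) (Qf b) (pr x A) (Cf (pr x A)).length =
      (List.range x.length).map (fun i => decide (Qf b (pr (pr x A) (un i)) ∈ Uq S)) ++
      (List.range x.length).map
        (fun i => decide (Qf b (pr (pr x A) (un (x.length + i))) ∈ Uq S)) := by
  unfold ttAnswers
  rw [Cf, fs_pr, List.length_append, List.range_add, List.map_append, List.map_map]
  rfl

theorem Qf_lt {x A : List Bool} {i : ℕ} (hi : i < x.length) :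
    Qf b (pr (pr x A) (un i)) = qry A (true :: un i) (b :: x) [] [] := by
  rw [Qf, if_neg]
  · simp only [fs_pr, sn_pr]
  · rw [isEmpty_drop, fs_pr, fs_pr, sn_pr, un_length]
    omega

theorem Qf_ge {x A : List Bool} {i : ℕ} (hi : x.length ≤ i) :
    Qf b (pr (pr x A) (un i)) = qry A [true] (b :: x) [true] ((un i).drop x.length) := by
  rw [Qf, if_pos]
  · simp only [fs_pr, sn_pr]
  · rw [isEmpty_drop, fs_pr, fs_pr, sn_pr, un_length]
    omega

theorem answers_good (hinj : ∀ b, Function.Injective (mp b))
    (hlen : ∀ c z, z.length < (mp c z).length) {A x : List Bool}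
    (hg : ∀ c z, z.length ≤ x.length → mpA S A c z = mp c z) :
    ∃ L M : List Bool, ttAnswers (Uq S) (Qf b) (pr x A) (Cf (pr x A)).length = L ++ M ∧
      L.length = x.length ∧ L.count true = dep mp b x ∧
      ∀ z, mp b z = x → M = (z ++ [true]) ++ List.replicate (x.length - (z.length + 1)) false := by
  classical
  refine ⟨_, _, answers_eq x A, by simp, ?_, ?_⟩
  · rw [dep]
    convert count_map_range (fun m => Bk mp (m + 1) b x) x.length using 2
    refine List.map_congr_left fun i hi => ?_
    rw [Qf_lt (List.mem_range.1 hi)]
    refine decide_eq_decide.2 ?_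
    rw [mem_back hlen hg, un_cons_length]
  · intro z hz
    have h1 := hlen b z
    rw [hz] at h1
    have h2 := map_bits (z ++ [true]) (n := x.length) (by simp; omega)
    rw [List.length_append, List.length_singleton] at h2
    rw [← h2]
    refine List.map_congr_left fun i _ => ?_
    rw [Qf_ge (by omega)]
    have h3 := mem_bit (S := S) hinj hlen hg hz ((un (x.length + i)).drop x.length)
    rw [un_drop_length, Nat.add_sub_cancel_left] at h3
    by_cases h4 : ((z ++ [true]).drop i).head?.getD false = true
    · rw [h4]; exact decide_eq_true (h3.2 h4)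
    · rw [Bool.not_eq_true] at h4
      rw [h4]
      refine decide_eq_false fun h5 => ?_
      rw [h3, h4] at h5
      exact absurd h5 (by simp)

theorem tt (hS : ∀ b, FP (S b)) (b : Bool) : ∃ F, PolyTimeTT (Uq S) F ∧
    ∀ (mp : Bool → List Bool → List Bool) (x A : List Bool), (∀ b, Function.Injective (mp b)) →
      (∀ c z, z.length < (mp c z).length) →
      (∀ c z, z.length ≤ x.length → mpA S A c z = mp c z) → F (pr x A) = hh mp b x := by
  classical
  refine ⟨fun X => Of S b (pr X (ttAnswers (Uq S) (Qf b) X (Cf X).length)),
    ⟨Qf b, Cf, Of S b, FP.polyTime Qf_fp, FP.polyTime Cf_fp, FP.polyTime (Of_fp hS),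
      fun _ => rfl⟩, fun mp x A hinj hlen hg => ?_⟩
  obtain ⟨L, M, h1, h2, h3, h4⟩ := answers_good (S := S) (b := b) hinj hlen hg
  simp only [h1, Of, fs_pr, sn_pr]
  rw [← h2, List.take_left, List.drop_left, px_iter, h3]
  by_cases h : Even (dep mp b x)
  · rw [hh, if_pos h, if_neg, hg _ _ (by omega)]
    simp [Nat.not_odd_iff_even.2 h]
  · have h5 : ∃ z, mp b z = x := exists_of_dep (fun h0 => h (by rw [h0]; exact Even.zero))
    obtain ⟨z, hz⟩ := h5
    rw [hh, if_neg h, if_pos (by simp [Nat.not_even_iff_odd.1 h]), h4 z hz]
    have h6 : Function.invFun (mp b) x = z := by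
      rw [← hz]; exact Function.leftInverse_invFun (hinj b) z
    rw [h6, List.reverse_append, List.reverse_replicate, List.reverse_append,
      List.reverse_singleton, List.singleton_append, sf_iter]
    · simp
    · simp
      omega

end Pool.Agent.Work.MP_caf7e3_lc
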