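import Mathlib
import Pool.Agent.Work.MP_caf7e3_lc.UB.TT
import Pool.Agent.Work.MP_caf7e3_lc.UB.Count

/-!
Any two numberings in GNPTime are isomorphic by isomorphisms that are computable in polynomial
time with non-adaptive queries to a set in UP and with advice.
-/

namespace Pool.Agent.Work.MP_caf7e3_lc

open Pool.Agent.Work.MP_0532f7_lc Polynomial

/-- the advice: the coded list of the pairs of padding words for the lengths up to `n` -/
def advw (y : Bool → ℕ → List Bool) (n : ℕ) : List Bool :=
  encL ((List.range (n + 1)).map fun i => pr (y true i) (y false i))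

theorem encL_len (n : ℕ) (f : ℕ → List Bool) (B : ℕ) (hf : ∀ i < n, (f i).length ≤ B) :
    (encL ((List.range n).map f)).length ≤ n * (2 * B + 1) := by
  induction n with
  | zero => simp
  | succ n ih =>
    rw [List.range_succ, List.map_append, encL_append, List.length_append]
    have h1 := ih fun i hi => hf i (by omega)
    have h2 := hf n (by omega)
    have h3 : (encL ([n].map f)).length = 2 * (f n).length + 1 := by
      simp [pr_length]
    have h4 : (n + 1) * (2 * B + 1) = n * (2 * B + 1) + (2 * B + 1) := by ring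
    rw [h3, h4]
    omega

theorem advw_poly {y : Bool → ℕ → List Bool} (hy : ∀ b n, (y b n).length = n + 1) :
    PolyAdvice (advw y) := by
  refine ⟨(X + 1) * (2 * (3 * (X + 1) + 1) + 1), fun n => ?_⟩
  refine (encL_len (n + 1) _ (3 * (n + 1) + 1) fun i hi => ?_).trans ?_
  · rw [pr_length, hy, hy]; omega
  · simp

theorem mpA_advw {S : Bool → List Bool → List Bool} {y : Bool → ℕ → List Bool} {n : ℕ}
    (c : Bool) {z : List Bool} (hz : z.length ≤ n) :
    mpA S (advw y n) c z = S c (pr z (y c z.length)) := by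
  rw [mpA, advw, nth_encL, List.getD_eq_getElem?_getD, List.getElem?_map,
    List.getElem?_range (by omega)]
  cases c <;> simp [fs_pr, sn_pr]

theorem up_iso {φ ψ : List Bool → ℕ →. ℕ} (hφ : GNPTime φ) (hψ : GNPTime ψ) :
    ∃ (U : Set (List Bool)) (a : ℕ → List Bool) (h k : List Bool → List Bool), InUP U ∧
      PolyAdvice a ∧ PolyTimeTTAdv U a h ∧ PolyTimeTTAdv U a k ∧ (∀ i, k (h i) = i) ∧
      (∀ i, h (k i) = i) ∧ ∀ i, ψ i = φ (h i) := by
  -- `S true` maps the programs of `φ` to programs of `ψ`, `S false` those of `ψ` to those of `φ`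
  obtain ⟨S1, hS1, hi1, ht1⟩ := family hψ hφ.1.1
  obtain ⟨S0, hS0, hi0, ht0⟩ := family hφ hψ.1.1
  obtain ⟨S, hSt, hSf⟩ : ∃ S : Bool → List Bool → List Bool, S true = S1 ∧ S false = S0 :=
    ⟨fun b => if b then S1 else S0, rfl, rfl⟩
  have hS : ∀ b, FP (S b) := by rintro (_ | _) <;> simpa [hSt, hSf]
  have hSi : ∀ b x y x' y', S b (pr x y) = S b (pr x' y') → x = x' ∧ y = y' := by
    rintro (_ | _)
    · rw [hSf]; exact hi0
    · rw [hSt]; exact hi1
  choose y hy hy' using fun (b : Bool) (n : ℕ) => exists_pad (hSi b) n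
  set mp : Bool → List Bool → List Bool := fun b z => S b (pr z (y b z.length)) with hmp
  have hinj : ∀ b, Function.Injective (mp b) := fun b x x' hxx => (hSi b _ _ _ _ hxx).1
  have hlen : ∀ b x, x.length < (mp b x).length := fun b x => hy' b _ x rfl
  have hgood : ∀ (x : List Bool) c z, z.length ≤ x.length →
      mpA S (advw y x.length) c z = mp c z := fun x c z hz => mpA_advw c hz
  obtain ⟨F, hF, hF'⟩ := tt hS true
  obtain ⟨G, hG, hG'⟩ := tt hS false
  refine ⟨Uq S, advw y, hh mp true, hh mp false, Uq_up hS hSi, advw_poly hy,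
    ⟨F, hF, fun x => (hF' mp x _ hinj hlen (hgood x)).symm⟩,
    ⟨G, hG, fun x => (hG' mp x _ hinj hlen (hgood x)).symm⟩,
    fun i => hh_hh hinj hlen true i, fun i => hh_hh hinj hlen false i, fun i => ?_⟩
  rcases hh_cases hinj true i with h1 | h1
  · rw [h1]
    change ψ i = φ (S false (pr i _))
    rw [hSf]
    exact ht0 _ _
  · have h2 : φ (hh mp true i) = ψ (mp true (hh mp true i)) := by
      change φ (hh mp true i) = ψ (S true (pr (hh mp true i) _))
      rw [hSt]
      exact ht1 _ _
    rw [h2, h1]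

/-- if `U` is in P then the queries can be answered in polynomial time -/
theorem tt_of_inP {U : Set (List Bool)} (hU : InP U) {f : List Bool → List Bool}
    (hf : PolyTimeTT U f) : PolyTime f := by
  classical
  obtain ⟨c, hc, hcU⟩ := hU
  obtain ⟨Q, C, O, hQ, hC, hO, hfe⟩ := hf
  have hc' := PolyTime.fp hc
  have hQ' := PolyTime.fp hQ
  have hC' := PolyTime.fp hC
  have hO' := PolyTime.fp hO
  -- one step: the state is the pair of the number of queries asked (in unary) and the answers
  let step : List Bool → List Bool → List Bool := fun p s =>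
    pr (true :: fs s) (sn s ++ [decide (c (Q (pr p (fs s))) = [true])])
  have hstep : FP fun z => step (fs z) (sn z) :=
    ((FP.cons true).comp FP.snI.fst).pair (FP.snI.snd.app
      (FPb.eq (hc'.comp (hQ'.comp (FP.fsI.pair FP.snI.fst))) (FP.const [true])))
  have key : ∀ (x : List Bool) (n : ℕ), (step x)^[n] (pr [] []) =
      pr (un n) (ttAnswers U Q x n) := by
    intro x n
    induction n with
    | zero => simp [ttAnswers]
    | succ n ih =>
      rw [Function.iterate_succ_apply', ih]
      have h1 : ttAnswers U Q x (n + 1) =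
          ttAnswers U Q x n ++ [decide (c (Q (pr x (un n))) = [true])] := by
        unfold ttAnswers
        rw [List.range_succ, List.map_append]
        simp only [List.map_cons, List.map_nil]
        congr 2
        rw [decide_eq_decide]
        exact hcU _
      rw [h1]
      simp only [step, fs_pr, sn_pr]
      rfl
  obtain ⟨P, hP⟩ := hC'.length
  have h1 := FP.iterc (step := step) (p := fun x => x) (c := C) (g := fun _ => pr [] []) hstep
    FP.id hC' (FP.const _) (3 * P + 1) (fun x i hi => by
      rw [key, pr_length, un_length]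
      have h2 := hP x
      have h3 : (ttAnswers U Q x i).length = i := by simp [ttAnswers]
      rw [h3]
      simp only [eval_add, eval_mul, eval_one, eval_ofNat]
      omega)
  refine FP.polyTime ((hO'.comp (FP.id.pair h1.snd)).congr fun x => ?_)
  rw [hfe, key, sn_pr]

theorem up_iso' {φ ψ : List Bool → ℕ →. ℕ} (hφ : GNPTime φ) (hψ : GNPTime ψ) :
    ∃ (U : Set (List Bool)) (a : ℕ → List Bool) (h k : List Bool → List Bool), InUP U ∧
      PolyAdvice a ∧ PolyTimeTTAdv U a h ∧ PolyTimeTTAdv U a k ∧
      (InP U → PolyTimeAdv a h ∧ PolyTimeAdv a k) ∧ (∀ i, k (h i) = i) ∧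
      (∀ i, h (k i) = i) ∧ ∀ i, ψ i = φ (h i) := by
  obtain ⟨U, a, h, k, hU, ha, ⟨F, hF, hF'⟩, ⟨G, hG, hG'⟩, h1, h2, h3⟩ := up_iso hφ hψ
  exact ⟨U, a, h, k, hU, ha, ⟨F, hF, hF'⟩, ⟨G, hG, hG'⟩, fun hp =>
    ⟨⟨F, tt_of_inP hp hF, hF'⟩, ⟨G, tt_of_inP hp hG, hG'⟩⟩, h1, h2, h3⟩

end Pool.Agent.Work.MP_caf7e3_lc
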